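import Mathlib

set_option autoImplicit false

namespace Pool.Agent.Results.MP_9e9a14_co.Triangle

open Classical in
/-- the sum of the weights of the edges at `u` -/
noncomputable def vsum {n : ℕ} (G : SimpleGraph (Fin n)) (w : G.edgeSet → ℕ) (u : Fin n) : ℕ :=
  ∑ e : G.edgeSet with u ∈ e.val, w e

/-- `w` is an edge 3-weighting of `G` properly colouring the vertices by sums -/
def Proper {n : ℕ} (G : SimpleGraph (Fin n)) (w : G.edgeSet → ℕ) : Prop :=
  (∀ e, w e = 1 ∨ w e = 2 ∨ w e = 3) ∧ ∀ u v, G.Adj u v → vsum G w u ≠ vsum G w v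

abbrev K : SimpleGraph (Fin 3) := ⊤

def ed (i : Fin 3) : K.edgeSet := ⟨s(i + 1, i + 2), by revert i; decide⟩

theorem ed_bij : Function.Bijective ed := by
  constructor
  · intro i j h
    have := congrArg Subtype.val h
    revert i j
    decide
  · rintro ⟨e, he⟩
    induction e using Sym2.ind with
    | _ a b =>
      have h : ∃ i : Fin 3, s(i + 1, i + 2) = s(a, b) := by
        have : a ≠ b := he
        revert a b
        decide
      obtain ⟨i, hi⟩ := h
      exact ⟨i, Subtype.ext hi⟩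

theorem sum_ed (I : Fintype K.edgeSet) (g : K.edgeSet → ℕ) :
    ∑ e ∈ @Finset.univ _ I, g e = g (ed 0) + g (ed 1) + g (ed 2) := by
  rw [← ed_bij.sum_comp, Fin.sum_univ_three]

theorem sum_eq (w : K.edgeSet → ℕ) (u : Fin 3) :
    vsum K w u = w (ed (u + 1)) + w (ed (u + 2)) := by
  unfold vsum
  rw [Finset.sum_filter, sum_ed]
  have h : ∀ u i : Fin 3, u ∈ (ed i).val ↔ u ≠ i := by
    intro u i
    show u ∈ s(i + 1, i + 2) ↔ u ≠ i
    rw [Sym2.mem_iff]
    revert u i
    decide
  simp only [h]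
  fin_cases u
  · simp
  · simp; ring
  · simp

theorem proper_iff (w : K.edgeSet → ℕ) : Proper K w ↔
    (∀ i, w (ed i) = 1 ∨ w (ed i) = 2 ∨ w (ed i) = 3) ∧ w (ed 0) ≠ w (ed 1) ∧
      w (ed 0) ≠ w (ed 2) ∧ w (ed 1) ≠ w (ed 2) := by
  unfold Proper
  constructor
  · rintro ⟨h1, h2⟩
    have a1 := h2 0 1 (by decide)
    have a2 := h2 0 2 (by decide)
    have a3 := h2 1 2 (by decide)
    have b1 : vsum K w 0 = w (ed 1) + w (ed 2) := sum_eq w 0
    have b2 : vsum K w 1 = w (ed 2) + w (ed 0) := sum_eq w 1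
    have b3 : vsum K w 2 = w (ed 0) + w (ed 1) := sum_eq w 2
    refine ⟨fun i => h1 _, ?_, ?_, ?_⟩ <;> omega
  · rintro ⟨h1, h2, h3, h4⟩
    refine ⟨fun e => ?_, fun u v huv h => ?_⟩
    · obtain ⟨i, rfl⟩ := ed_bij.2 e
      exact h1 i
    · have h5 : w (ed (u + 1)) + w (ed (u + 2)) = w (ed (v + 1)) + w (ed (v + 2)) := by
        rw [← sum_eq, ← sum_eq, h]
      have h6 : u ≠ v := huv
      fin_cases u <;> fin_cases v <;> simp at h5 h6 <;> omega

theorem map_ed (σ : Equiv.Perm (Fin 3)) (i : Fin 3) :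
    (SimpleGraph.Iso.completeGraph σ).mapEdgeSet (ed i) = ed (σ i) := by
  apply Subtype.ext
  show s(σ (i + 1), σ (i + 2)) = s(σ i + 1, σ i + 2)
  rw [Sym2.eq_iff]
  revert σ i
  decide +kernel

set_option synthInstance.maxSize 4096 in
theorem key : ∀ a b : Fin 3 → Fin 3, a 0 ≠ a 1 → a 0 ≠ a 2 → a 1 ≠ a 2 → b 0 ≠ b 1 →
    b 0 ≠ b 2 → b 1 ≠ b 2 → ∃ σ : Equiv.Perm (Fin 3), ∀ i, b (σ i) = a i := by decide +kernel

theorem result : ∃ (n : ℕ) (G : SimpleGraph (Fin n)), G.Connected ∧ G.edgeSet.Nonempty ∧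
    (∃ w, Proper G w) ∧
    ∀ w w', Proper G w → Proper G w' → ∃ φ : G ≃g G, ∀ e, w' (φ.mapEdgeSet e) = w e := by
  refine ⟨3, K, SimpleGraph.connected_top, ⟨_, (ed 0).2⟩, ?_, ?_⟩
  · refine ⟨fun e => ((Equiv.ofBijective ed ed_bij).symm e).val + 1, (proper_iff _).2 ?_⟩
    simp only [Equiv.ofBijective_symm_apply_apply]
    decide
  · intro w w' h h'
    obtain ⟨h1, h2, h3, h4⟩ := (proper_iff _).1 h
    obtain ⟨g1, g2, g3, g4⟩ := (proper_iff _).1 h'
    obtain ⟨σ, hσ⟩ := key (fun i => ⟨w (ed i) - 1, by have := h1 i; omega⟩)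
      (fun i => ⟨w' (ed i) - 1, by have := g1 i; omega⟩)
      (by intro h; have := congrArg Fin.val h; have := h1 0; have := h1 1; simp only at *; omega)
      (by intro h; have := congrArg Fin.val h; have := h1 0; have := h1 2; simp only at *; omega)
      (by intro h; have := congrArg Fin.val h; have := h1 1; have := h1 2; simp only at *; omega)
      (by intro h; have := congrArg Fin.val h; have := g1 0; have := g1 1; simp only at *; omega)
      (by intro h; have := congrArg Fin.val h; have := g1 0; have := g1 2; simp only at *; omega)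
      (by intro h; have := congrArg Fin.val h; have := g1 1; have := g1 2; simp only at *; omega)
    refine ⟨SimpleGraph.Iso.completeGraph σ, fun e => ?_⟩
    obtain ⟨i, rfl⟩ := ed_bij.2 e
    rw [map_ed]
    have h5 := congrArg Fin.val (hσ i)
    have := h1 i
    have := g1 (σ i)
    simp only at h5
    omega

end Pool.Agent.Results.MP_9e9a14_co.Triangle
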